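import Mathlib

set_option autoImplicit false

namespace Pool.Agent.H.MP_4b7d36_an

open Finset

noncomputable def cnt {n : ℕ} (φ : Fin n → Bool → ℝ) : ℕ :=
  (univ.filter fun j => φ j true ≠ φ j false).card

lemma cnt_succ {n : ℕ} (φ : Fin (n + 1) → Bool → ℝ) :
    cnt φ = (if φ 0 true ≠ φ 0 false then 1 else 0) + cnt (fun j => φ j.succ) := by
  unfold cnt
  rw [card_filter, card_filter, Fin.sum_univ_succ]

lemma sum_succ {n : ℕ} (F : (Fin (n + 1) → Bool) → ℝ) :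
    ∑ y, F y = ∑ y : Fin n → Bool, (F (Fin.cons true y) + F (Fin.cons false y)) := by
  rw [← (Fin.consEquiv fun _ : Fin (n + 1) => Bool).sum_comp, Fintype.sum_prod_type,
    Fintype.sum_bool, sum_add_distrib]
  rfl

theorem bonami {ι : Type*} [Fintype ι] (n : ℕ) : ∀ (m : ℕ) (a : ι → ℝ) (φ : ι → Fin n → Bool → ℝ),
    (∀ i, a i ≠ 0 → cnt (φ i) ≤ m) →
    2 ^ n * ∑ y : Fin n → Bool, (∑ i, a i * ∏ j, φ i j (y j)) ^ 4
      ≤ 9 ^ m * (∑ y : Fin n → Bool, (∑ i, a i * ∏ j, φ i j (y j)) ^ 2) ^ 2 := by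
  induction n with
  | zero =>
    intro m a φ _
    simp only [univ_unique, sum_singleton, pow_zero, one_mul]
    rw [← pow_mul]
    exact le_mul_of_one_le_left (by positivity) (one_le_pow₀ (by norm_num))
  | succ n ih =>
    intro m a φ H
    let g : (Fin n → Bool) → ℝ := fun y =>
      ∑ i, (a i * ((φ i 0 true + φ i 0 false) / 2)) * ∏ j : Fin n, φ i j.succ (y j)
    let h : (Fin n → Bool) → ℝ := fun y =>
      ∑ i, (a i * ((φ i 0 true - φ i 0 false) / 2)) * ∏ j : Fin n, φ i j.succ (y j)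
    have et : ∀ y : Fin n → Bool,
        ∑ i, a i * ∏ j, φ i j ((Fin.cons true y : Fin (n + 1) → Bool) j) = g y + h y := by
      intro y
      simp only [g, h, ← sum_add_distrib, Fin.prod_univ_succ, Fin.cons_zero, Fin.cons_succ]
      exact sum_congr rfl fun i _ => by ring
    have ef : ∀ y : Fin n → Bool,
        ∑ i, a i * ∏ j, φ i j ((Fin.cons false y : Fin (n + 1) → Bool) j) = g y - h y := by
      intro y
      simp only [g, h, ← sum_sub_distrib, Fin.prod_univ_succ, Fin.cons_zero, Fin.cons_succ]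
      exact sum_congr rfl fun i _ => by ring
    rw [sum_succ, sum_succ]
    simp only [et, ef]
    have hg : 2 ^ n * ∑ y, g y ^ 4 ≤ 9 ^ m * (∑ y, g y ^ 2) ^ 2 := by
      refine ih m _ (fun i j => φ i j.succ) fun i hi => ?_
      have := H i (left_ne_zero_of_mul hi)
      rw [cnt_succ] at this
      omega
    have hh : 9 * (2 ^ n * ∑ y, h y ^ 4) ≤ 9 ^ m * (∑ y, h y ^ 2) ^ 2 := by
      have hc : ∀ i, a i * ((φ i 0 true - φ i 0 false) / 2) ≠ 0 →
          1 + cnt (fun j => φ i j.succ) ≤ m := by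
        intro i hi
        have := H i (left_ne_zero_of_mul hi)
        have h2 : φ i 0 true ≠ φ i 0 false := by
          intro h3; apply hi; rw [h3]; simp
        rwa [cnt_succ, if_pos h2] at this
      rcases m with _ | m
      · have : ∀ y, h y = 0 := by
          intro y
          refine sum_eq_zero fun i _ => ?_
          have : a i * ((φ i 0 true - φ i 0 false) / 2) = 0 := by
            by_contra hi
            have := hc i hi
            omega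
          rw [this, zero_mul]
        simp [this]
      · have := ih m _ (fun i j => φ i j.succ) fun i hi => (by have := hc i hi; omega)
        rw [pow_succ]
        change 2 ^ n * ∑ y, h y ^ 4 ≤ 9 ^ m * (∑ y, h y ^ 2) ^ 2 at this
        linarith
    have e4 : ∑ y, ((g y + h y) ^ 4 + (g y - h y) ^ 4)
        = 2 * (∑ y, g y ^ 4 + 6 * ∑ y, g y ^ 2 * h y ^ 2 + ∑ y, h y ^ 4) := by
      simp only [mul_sum, ← sum_add_distrib]
      exact sum_congr rfl fun y _ => by ring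
    have e2 : ∑ y, ((g y + h y) ^ 2 + (g y - h y) ^ 2) = 2 * (∑ y, g y ^ 2 + ∑ y, h y ^ 2) := by
      simp only [mul_sum, ← sum_add_distrib]
      exact sum_congr rfl fun y _ => by ring
    rw [e4, e2]
    have cs := sum_mul_sq_le_sq_mul_sq univ (fun y => g y ^ 2) (fun y => h y ^ 2)
    simp only [← pow_mul] at cs
    obtain ⟨G4, hG4⟩ : ∃ G, G = ∑ y, g y ^ 4 := ⟨_, rfl⟩
    obtain ⟨H4, hH4⟩ : ∃ G, G = ∑ y, h y ^ 4 := ⟨_, rfl⟩
    obtain ⟨G2, hG2⟩ : ∃ G, G = ∑ y, g y ^ 2 := ⟨_, rfl⟩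
    obtain ⟨H2, hH2⟩ : ∃ G, G = ∑ y, h y ^ 2 := ⟨_, rfl⟩
    obtain ⟨X, hX⟩ : ∃ G, G = ∑ y, g y ^ 2 * h y ^ 2 := ⟨_, rfl⟩
    have p1 : 0 ≤ G4 := hG4 ▸ sum_nonneg fun y _ => by positivity
    have p2 : 0 ≤ H4 := hH4 ▸ sum_nonneg fun y _ => by positivity
    have p3 : 0 ≤ G2 := hG2 ▸ sum_nonneg fun y _ => by positivity
    have p4 : 0 ≤ H2 := hH2 ▸ sum_nonneg fun y _ => by positivity
    norm_num at cs
    rw [← hG4, ← hH4, ← hX] at cs
    rw [← hG4, ← hG2] at hg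
    rw [← hH4, ← hH2] at hh
    rw [← hG4, ← hH4, ← hX, ← hG2, ← hH2]
    obtain ⟨T, hT⟩ : ∃ T : ℝ, T = 2 ^ n := ⟨_, rfl⟩
    obtain ⟨K, hK⟩ : ∃ T : ℝ, T = 9 ^ m := ⟨_, rfl⟩
    have pT : 0 < T := hT ▸ by positivity
    have pK : 0 < K := hK ▸ by positivity
    rw [pow_succ, ← hT, ← hK]
    rw [← hT, ← hK] at hg hh
    have hX3 : 3 * (T * X) ≤ K * G2 * H2 := by
      refine le_of_pow_le_pow_left₀ two_ne_zero (by positivity) ?_
      calc (3 * (T * X)) ^ 2 = 9 * T ^ 2 * X ^ 2 := by ring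
        _ ≤ 9 * T ^ 2 * (G4 * H4) := mul_le_mul_of_nonneg_left cs (by positivity)
        _ = (T * G4) * (9 * (T * H4)) := by ring
        _ ≤ (K * G2 ^ 2) * (K * H2 ^ 2) := mul_le_mul hg hh (by positivity) (by positivity)
        _ = _ := by ring
    have : 0 ≤ T * H4 := by positivity
    nlinarith

theorem l2l1 {κ : Type*} [Fintype κ] (f : κ → ℝ) (T K : ℝ) (hT : 0 < T) (hK : 0 ≤ K)
    (H : T * ∑ y, f y ^ 4 ≤ K * (∑ y, f y ^ 2) ^ 2) :
    T * ∑ y, f y ^ 2 ≤ K * (∑ y, |f y|) ^ 2 := by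
  have c1 : (∑ y, f y ^ 2) ^ 2 ≤ (∑ y, |f y|) * ∑ y, |f y| ^ 3 := by
    refine sum_sq_le_sum_mul_sum_of_sq_le_mul univ (fun y _ => abs_nonneg _)
      (fun y _ => by positivity) fun y _ => le_of_eq ?_
    rw [← sq_abs (f y)]; ring
  have c2 : (∑ y, |f y| ^ 3) ^ 2 ≤ (∑ y, f y ^ 2) * ∑ y, f y ^ 4 := by
    refine sum_sq_le_sum_mul_sum_of_sq_le_mul univ (fun y _ => by positivity)
      (fun y _ => by positivity) fun y _ => le_of_eq ?_
    have : f y ^ 4 = |f y| ^ 4 := (Even.pow_abs (by decide) _).symm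
    rw [this, ← sq_abs (f y)]; ring
  obtain ⟨S1, h1⟩ : ∃ G, G = ∑ y, |f y| := ⟨_, rfl⟩
  obtain ⟨S2, h2⟩ : ∃ G, G = ∑ y, f y ^ 2 := ⟨_, rfl⟩
  obtain ⟨S3, h3⟩ : ∃ G, G = ∑ y, |f y| ^ 3 := ⟨_, rfl⟩
  obtain ⟨S4, h4⟩ : ∃ G, G = ∑ y, f y ^ 4 := ⟨_, rfl⟩
  have p1 : 0 ≤ S1 := h1 ▸ sum_nonneg fun y _ => by positivity
  have p2 : 0 ≤ S2 := h2 ▸ sum_nonneg fun y _ => by positivity
  have p3 : 0 ≤ S3 := h3 ▸ sum_nonneg fun y _ => by positivity
  rw [← h1, ← h2, ← h3] at c1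
  rw [← h2, ← h3, ← h4] at c2
  rw [← h2, ← h4] at H
  rw [← h1, ← h2]
  rcases p2.eq_or_lt with h0 | h0
  · rw [← h0, mul_zero]; positivity
  refine le_of_mul_le_mul_right ?_ (pow_pos h0 3)
  calc T * S2 * S2 ^ 3 = T * (S2 ^ 2) ^ 2 := by ring
    _ ≤ T * (S1 * S3) ^ 2 := by gcongr
    _ = T * S1 ^ 2 * S3 ^ 2 := by ring
    _ ≤ T * S1 ^ 2 * (S2 * S4) := by gcongr
    _ = S1 ^ 2 * S2 * (T * S4) := by ring
    _ ≤ S1 ^ 2 * S2 * (K * S2 ^ 2) := by gcongr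
    _ = _ := by ring

end Pool.Agent.H.MP_4b7d36_an
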