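import Pool.Agent.H.MP_4b7d36_an.A

set_option autoImplicit false

namespace Pool.Agent.H.MP_4b7d36_an

open Finset

noncomputable def w (b y : Bool) : ℝ := if b then (if y then 5 / 4 else 3 / 4) else 1
noncomputable def r (b y : Bool) : ℝ := if b then (if y then 112 / 100 else 87 / 100) else 1
noncomputable def th (b : Bool) : ℝ := if b then 199 / 200 else 1
noncomputable def c (b : Bool) : ℝ := if b then 8 / 36 else 1 / 36

lemma sum_pi {d : ℕ} (F : Fin d → Bool → ℝ) :
    ∑ y : Fin d → Bool, ∏ j, F j (y j) = ∏ j, (F j true + F j false) := by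
  have := prod_univ_sum (fun _ : Fin d => (univ : Finset Bool)) F
  rw [Fintype.piFinset_univ] at this
  rw [← this]
  simp only [Fintype.sum_bool]

lemma w_pos (b y : Bool) : 0 < w b y := by cases b <;> cases y <;> norm_num [w]
lemma r_pos (b y : Bool) : 0 < r b y := by cases b <;> cases y <;> norm_num [r]
lemma th_pos (b : Bool) : 0 < th b := by cases b <;> norm_num [th]
lemma c_pos (b : Bool) : 0 < c b := by cases b <;> norm_num [c]
lemma w_le (b y : Bool) : w b y ≤ r b y ^ 2 := by cases b <;> cases y <;> norm_num [w, r]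

theorem pattern {ι : Type*} [Fintype ι] {d : ℕ} (π : Fin d → Bool) (m : ℕ) (a : ι → ℝ)
    (φ : ι → Fin d → Bool → ℝ) (H : ∀ i, a i ≠ 0 → cnt (φ i) ≤ m) :
    2 ^ d * (1 - 8 * 3 ^ m * ∏ j, th (π j)) / 5 ≤
      ∑ y : Fin d → Bool, |∏ j, w (π j) (y j) - ∑ i, a i * ∏ j, φ i j (y j)| := by
  classical
  have hb := l2l1 (fun y : Fin d → Bool => ∑ i, a i * ∏ j, φ i j (y j)) (2 ^ d) (9 ^ m)
    (by positivity) (by positivity) (bonami d m a φ H)
  obtain ⟨f, hf⟩ : ∃ f : (Fin d → Bool) → ℝ, f = fun y => ∑ i, a i * ∏ j, φ i j (y j) := ⟨_, rfl⟩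
  have hf' : ∀ y, ∑ i, a i * ∏ j, φ i j (y j) = f y := fun y => by rw [hf]
  simp only [hf'] at hb ⊢
  have sW : ∑ y : Fin d → Bool, ∏ j, w (π j) (y j) = 2 ^ d := by
    rw [sum_pi (fun j => w (π j))]
    rw [prod_congr rfl (g := fun _ => (2:ℝ)) fun j _ => by cases π j <;> norm_num [w]]
    simp
  have sR : ∑ y : Fin d → Bool, ∏ j, r (π j) (y j) = 2 ^ d * ∏ j, th (π j) := by
    rw [sum_pi (fun j => r (π j))]
    rw [prod_congr rfl (g := fun j => 2 * th (π j)) fun j _ => by cases π j <;> norm_num [r, th]]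
    rw [prod_mul_distrib]; simp
  have hWR : ∀ y : Fin d → Bool, ∏ j, w (π j) (y j) ≤ (∏ j, r (π j) (y j)) ^ 2 := by
    intro y
    rw [← prod_pow]
    exact prod_le_prod (fun j _ => (w_pos _ _).le) fun j _ => w_le _ _
  have hW0 : ∀ y : Fin d → Bool, 0 < ∏ j, w (π j) (y j) := fun y => prod_pos fun j _ => w_pos _ _
  have hR0 : ∀ y : Fin d → Bool, 0 < ∏ j, r (π j) (y j) := fun y => prod_pos fun j _ => r_pos _ _
  have hΘ : 0 < ∏ j, th (π j) := prod_pos fun j _ => th_pos _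
  obtain ⟨W, hW⟩ : ∃ W : (Fin d → Bool) → ℝ, W = fun y => ∏ j, w (π j) (y j) := ⟨_, rfl⟩
  have hW' : ∀ y : Fin d → Bool, ∏ j, w (π j) (y j) = W y := fun y => by rw [hW]
  obtain ⟨R, hR⟩ : ∃ R : (Fin d → Bool) → ℝ, R = fun y => ∏ j, r (π j) (y j) := ⟨_, rfl⟩
  have hR' : ∀ y : Fin d → Bool, ∏ j, r (π j) (y j) = R y := fun y => by rw [hR]
  simp only [hW', hR'] at sW sR hWR hW0 hR0 ⊢
  obtain ⟨Θ, hΘ'⟩ : ∃ Θ, Θ = ∏ j, th (π j) := ⟨_, rfl⟩
  rw [← hΘ'] at sR hΘ ⊢
  obtain ⟨T, hT⟩ : ∃ T : ℝ, T = 2 ^ d := ⟨_, rfl⟩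
  have pT : 0 < T := hT ▸ by positivity
  rw [← hT] at hb sW sR ⊢
  obtain ⟨K, hK⟩ : ∃ T : ℝ, T = 3 ^ m := ⟨_, rfl⟩
  have pK : 0 < K := hK ▸ by positivity
  have h9 : (9:ℝ) ^ m = K ^ 2 := by rw [hK, ← pow_mul, mul_comm, pow_mul]; norm_num
  rw [h9] at hb
  rw [← hK]
  obtain ⟨E, hE⟩ : ∃ E, E = ∑ y, |W y - f y| := ⟨_, rfl⟩
  have pE : 0 ≤ E := hE ▸ sum_nonneg fun y _ => abs_nonneg _
  rw [← hE]
  have pKΘ : 0 < K * Θ := by positivity
  by_cases hc : 1 ≤ 8 * K * Θ
  · have : T * (1 - 8 * K * Θ) ≤ 0 := mul_nonpos_of_nonneg_of_nonpos pT.le (by linarith)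
    linarith
  push Not at hc
  let A : Finset (Fin d → Bool) := univ.filter fun y => 1 ≤ 4 * Θ ^ 2 * W y
  have a1 : (A.card : ℝ) ≤ 4 * Θ ^ 2 * T := by
    rw [← sW, mul_sum]
    calc (A.card : ℝ) = ∑ _y ∈ A, (1:ℝ) := by simp
      _ ≤ ∑ y ∈ A, 4 * Θ ^ 2 * W y := sum_le_sum fun y hy => (mem_filter.1 hy).2
      _ ≤ _ := sum_le_sum_of_subset_of_nonneg (subset_univ _) fun y _ _ => by
          have := hW0 y; positivity
  have a2 : T / 2 ≤ ∑ y ∈ A, W y := by
    have s1 := sum_filter_add_sum_filter_not univ (fun y => 1 ≤ 4 * Θ ^ 2 * W y) W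
    have s2 : ∑ y ∈ univ.filter (fun y => ¬ 1 ≤ 4 * Θ ^ 2 * W y), 2 * Θ * W y ≤ T * Θ := by
      rw [← sR]
      calc _ ≤ ∑ y ∈ univ.filter (fun y => ¬ 1 ≤ 4 * Θ ^ 2 * W y), R y := by
            refine sum_le_sum fun y hy => ?_
            have h1 := not_le.1 (mem_filter.1 hy).2
            refine le_of_pow_le_pow_left₀ two_ne_zero (hR0 y).le ?_
            have h2 := hWR y
            have h3 := hW0 y
            nlinarith
        _ ≤ _ := sum_le_sum_of_subset_of_nonneg (subset_univ _) fun y _ _ => (hR0 y).le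
    rw [← mul_sum] at s2
    have s3 : ∑ y ∈ univ.filter (fun y => ¬ 1 ≤ 4 * Θ ^ 2 * W y), W y ≤ T / 2 := by
      refine le_of_mul_le_mul_left ?_ (by positivity : 0 < 2 * Θ)
      linarith
    change T / 2 ≤ ∑ y ∈ univ.filter (fun y => 1 ≤ 4 * Θ ^ 2 * W y), W y
    linarith
  have a3 : ∑ y ∈ A, W y - E ≤ ∑ y ∈ A, f y := by
    have : ∑ y ∈ A, (W y - f y) ≤ E := by
      rw [hE]
      calc _ ≤ ∑ y ∈ A, |W y - f y| := sum_le_sum fun y _ => le_abs_self _
        _ ≤ _ := sum_le_sum_of_subset_of_nonneg (subset_univ _) fun y _ _ => abs_nonneg _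
    rw [sum_sub_distrib] at this
    linarith
  have a4 : ∑ y, |f y| ≤ T + E := by
    rw [← sW, hE, ← sum_add_distrib]
    refine sum_le_sum fun y _ => ?_
    have := abs_sub_abs_le_abs_sub (f y) (W y)
    rw [abs_sub_comm, abs_of_pos (hW0 y)] at this
    linarith
  have a5 : (∑ y ∈ A, f y) ^ 2 ≤ A.card * ∑ y, f y ^ 2 :=
    (sq_sum_le_card_mul_sum_sq (s := A) (f := f)).trans (mul_le_mul_of_nonneg_left
      (sum_le_sum_of_subset_of_nonneg (subset_univ _) fun y _ _ => sq_nonneg _) (Nat.cast_nonneg _))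
  have p1 : 0 ≤ ∑ y, |f y| := sum_nonneg fun y _ => abs_nonneg _
  have p2 : 0 ≤ ∑ y, f y ^ 2 := sum_nonneg fun y _ => sq_nonneg _
  have a6 : ∑ y ∈ A, f y ≤ 2 * (K * Θ) * ∑ y, |f y| := by
    refine le_of_pow_le_pow_left₀ two_ne_zero (by positivity) ?_
    calc _ ≤ _ := a5
      _ ≤ 4 * Θ ^ 2 * T * ∑ y, f y ^ 2 := mul_le_mul_of_nonneg_right a1 p2
      _ = 4 * Θ ^ 2 * (T * ∑ y, f y ^ 2) := by ring
      _ ≤ 4 * Θ ^ 2 * (K ^ 2 * (∑ y, |f y|) ^ 2) := by gcongr
      _ = _ := by ring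
  have a7 : 2 * (K * Θ) * ∑ y, |f y| ≤ 1 / 4 * (T + E) :=
    mul_le_mul (by linarith) a4 p1 (by norm_num)
  have : 0 ≤ T * (K * Θ) := by positivity
  nlinarith

theorem total {ι : Type*} [Fintype ι] {d : ℕ} (m : ℕ) (a : ι → ℝ)
    (l : ι → Fin d → Bool → Bool → ℝ) (hi : ι → Fin d → Prop)
    (H1 : ∀ i j, ¬ hi i j → ∀ b, l i j b true = l i j b false)
    (H2 : ∀ i j, hi i j → ∀ y, l i j false y = 0) :
    (1 / 2) ^ d * (1 - Fintype.card ι * (8 / 9) ^ m - 8 * 3 ^ m * (224 / 225) ^ d) / 5 ≤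
      ∑ π : Fin d → Bool, ∑ y : Fin d → Bool,
        |∏ j, (c (π j) * w (π j) (y j)) - ∑ i, a i * ∏ j, l i j (π j) (y j)| := by
  classical
  let big : ι → Prop := fun i => m < (univ.filter fun j => hi i j).card
  let M : (Fin d → Bool) → ℝ := fun π => ∏ j, (2 * c (π j))
  have hM : ∀ π, 0 < M π := fun π => prod_pos fun j _ => by have := c_pos (π j); positivity
  let I : ι → (Fin d → Bool) → ℝ := fun i π =>
    if big i ∧ ∀ j, hi i j → π j = true then M π else 0
  have hI : ∀ i π, 0 ≤ I i π := by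
    intro i π; simp only [I]; split_ifs
    · exact (hM π).le
    · exact le_rfl
  have one : ∀ π : Fin d → Bool, (M π - 8 * 3 ^ m * ∏ j, (2 * c (π j) * th (π j)) - ∑ i, I i π) / 5
      ≤ ∑ y : Fin d → Bool,
        |∏ j, (c (π j) * w (π j) (y j)) - ∑ i, a i * ∏ j, l i j (π j) (y j)| := by
    intro π
    have q0 : 0 ≤ 8 * 3 ^ m * ∏ j, (2 * c (π j) * th (π j)) :=
      mul_nonneg (by positivity) (prod_nonneg fun j _ => by
        have := c_pos (π j); have := th_pos (π j); positivity)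
    by_cases hbad : ∃ i, big i ∧ ∀ j, hi i j → π j = true
    · obtain ⟨i, hi'⟩ := hbad
      have h1 := single_le_sum (s := univ) (fun i _ => hI i π) (mem_univ i)
      have h2 : I i π = M π := if_pos hi'
      have h3 : 0 ≤ ∑ y : Fin d → Bool,
        |∏ j, (c (π j) * w (π j) (y j)) - ∑ i, a i * ∏ j, l i j (π j) (y j)| :=
        sum_nonneg fun y _ => abs_nonneg _
      linarith
    · push Not at hbad
      have hC : 0 < ∏ j, c (π j) := prod_pos fun j _ => c_pos _
      have hp := pattern π m (fun i => if big i then 0 else a i / ∏ j, c (π j))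
        (fun i j => l i j (π j)) (by
          intro i h0
          have hb : ¬ big i := by intro hb; simp [hb] at h0
          refine le_trans (card_le_card fun j hj => ?_) (not_lt.1 hb)
          rw [mem_filter] at hj ⊢
          refine ⟨hj.1, ?_⟩
          by_contra hn
          exact hj.2 (H1 i j hn _))
      have e : ∀ y : Fin d → Bool,
          |∏ j, (c (π j) * w (π j) (y j)) - ∑ i, a i * ∏ j, l i j (π j) (y j)| =
          (∏ j, c (π j)) * |∏ j, w (π j) (y j) - ∑ i, (if big i then 0 else a i / ∏ j, c (π j)) *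
            ∏ j, l i j (π j) (y j)| := by
        intro y
        rw [← abs_of_pos hC, ← abs_mul, abs_of_pos hC, mul_sub, prod_mul_distrib, mul_sum]
        congr 2
        refine sum_congr rfl fun i _ => ?_
        split_ifs with hb
        · obtain ⟨j, hj, hj'⟩ := hbad i hb
          have : π j = false := by simpa using hj'
          rw [prod_eq_zero (mem_univ j) (by rw [this]; exact H2 i j hj _)]
          simp
        · field_simp
      simp only [e]
      rw [← mul_sum]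
      have h3 := mul_le_mul_of_nonneg_left hp hC.le
      have h4 : 0 ≤ ∑ i, I i π := sum_nonneg fun i _ => hI i π
      have e1 : M π = 2 ^ d * ∏ j, c (π j) := by simp only [M]; rw [prod_mul_distrib]; simp
      have e2 : ∏ j, (2 * c (π j) * th (π j)) = 2 ^ d * (∏ j, c (π j)) * ∏ j, th (π j) := by
        rw [prod_mul_distrib, prod_mul_distrib]; simp
      rw [e1, e2]
      nlinarith
  refine le_trans ?_ (sum_le_sum fun π _ => one π)
  rw [← sum_div, sum_sub_distrib, sum_sub_distrib, ← mul_sum, sum_comm]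
  have s1 : ∑ π : Fin d → Bool, M π = (1 / 2) ^ d := by
    simp only [M]
    rw [sum_pi (fun _ b => 2 * c b), prod_const, card_univ, Fintype.card_fin]
    congr 1; norm_num [c]
  have s2 : ∑ π : Fin d → Bool, ∏ j, (2 * c (π j) * th (π j)) = (1 / 2) ^ d * (224 / 225) ^ d := by
    rw [sum_pi (fun _ b => 2 * c b * th b), ← mul_pow, prod_const, card_univ, Fintype.card_fin]
    congr 1; norm_num [c, th]
  have s3 : ∀ i, ∑ π : Fin d → Bool, I i π ≤ (1 / 2) ^ d * (8 / 9) ^ m := by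
    intro i
    by_cases hb : big i
    · have e : ∀ π, I i π = ∏ j, (if hi i j → π j = true then 2 * c (π j) else 0) := by
        intro π
        simp only [I, hb, true_and]
        split_ifs with h
        · exact prod_congr rfl fun j _ => by rw [if_pos (h j)]
        · push Not at h
          obtain ⟨j, hj⟩ := h
          exact (prod_eq_zero (mem_univ j) (if_neg fun h' => hj.2 (h' hj.1))).symm
      simp only [e]
      rw [sum_pi (fun j b => if hi i j → b = true then 2 * c b else 0)]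
      rw [prod_congr rfl (g := fun j => 1 / 2 * if hi i j then (8 / 9 : ℝ) else 1) fun j _ => by
        by_cases h : hi i j <;> norm_num [h, c]]
      rw [prod_mul_distrib, prod_ite, prod_const, prod_const, prod_const_one, mul_one, card_univ,
        Fintype.card_fin]
      exact mul_le_mul_of_nonneg_left
        (pow_le_pow_of_le_one (by norm_num) (by norm_num) (le_of_lt hb)) (by positivity)
    · have : ∀ π, I i π = 0 := fun π => if_neg fun h => hb h.1
      simp only [this, sum_const_zero]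
      positivity
  have s4 : ∑ i, ∑ π : Fin d → Bool, I i π ≤ Fintype.card ι * ((1 / 2) ^ d * (8 / 9) ^ m) := by
    calc _ ≤ ∑ _i : ι, (1 / 2 : ℝ) ^ d * (8 / 9) ^ m := sum_le_sum fun i _ => s3 i
      _ = _ := by simp
  rw [s1, s2]
  nlinarith

end Pool.Agent.H.MP_4b7d36_an
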