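import Pool.Agent.H.MP_4b7d36_an.B
import Pool.Agent.H.MP_e46b3e_an.C

set_option autoImplicit false

namespace Pool.Agent.H.MP_4b7d36_an

open Finset MeasureTheory Pool.Agent.H.MP_e46b3e_an

noncomputable def e (b y : Bool) : ℝ → ℝ :=
  if b then (if y then st (1 / 3) (2 / 3) 0 0 1 else st (1 / 3) (2 / 3) 0 1 0)
  else st (1 / 3) (2 / 3) (1 / 2) 0 0

lemma e_nonneg (b y : Bool) (u : ℝ) : 0 ≤ e b y u := by
  cases b <;> cases y <;> simp only [e, st, if_true, if_false, Bool.false_eq_true] <;>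
    split_ifs <;> norm_num

lemma e_sum (u : ℝ) : (e true true u + e true false u) + (e false true u + e false false u) = 1 := by
  simp only [e, st, if_true, if_false, Bool.false_eq_true]
  split_ifs <;> norm_num

lemma st1 (c1 c2 c3 : ℝ) : Integrable (fun u => st (1 / 3) (2 / 3) c1 c2 c3 u * u) nu ∧
    ∫ u, st (1 / 3) (2 / 3) c1 c2 c3 u * u ∂nu = (c1 + 3 * c2 + 5 * c3) / 18 := by
  have := int_st (a := 1 / 3) (b := 2 / 3) (r := 1) c1 c2 c3 zero_le_one (by norm_num)
    (by norm_num) (by norm_num)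
  simp only [Real.rpow_one] at this
  refine ⟨this.1, ?_⟩
  rw [this.2, show (1:ℝ) + 1 = 2 by norm_num, Real.rpow_two, Real.rpow_two]
  ring

lemma st0 (c1 c2 c3 : ℝ) : Integrable (st (1 / 3) (2 / 3) c1 c2 c3) nu ∧
    ∫ u, st (1 / 3) (2 / 3) c1 c2 c3 u ∂nu = (c1 + c2 + c3) / 3 := by
  have := int_st (a := 1 / 3) (b := 2 / 3) (r := 0) c1 c2 c3 le_rfl (by norm_num)
    (by norm_num) (by norm_num)
  simp only [Real.rpow_zero, mul_one, zero_add, Real.rpow_one] at this
  refine ⟨this.1, ?_⟩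
  rw [this.2]
  ring

lemma e_int (b y : Bool) : Integrable (e b y) nu := by
  cases b <;> cases y <;> exact (st0 _ _ _).1

lemma e_int1 (b y : Bool) : Integrable (fun u => e b y u * u) nu ∧
    ∫ u, e b y u * u ∂nu = c b * w b y := by
  cases b <;> cases y <;> refine ⟨(st1 _ _ _).1, ((st1 _ _ _).2).trans ?_⟩ <;> norm_num [c, w]

lemma e_int2 (b y : Bool) (x : ℝ) : Integrable (fun u => e b y u * ind x u) nu :=
  (e_int b y).mul_bdd (c := 1) (ind_meas x).aestronglyMeasurable
    (Filter.Eventually.of_forall fun u => abs_ind x u)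

theorem lower {d n : ℕ} (m : ℕ) (x : Fin n → Fin d → ℝ) (a : Fin n → ℝ) :
    (1 / 2) ^ d * (1 - n * (8 / 9) ^ m - 8 * 3 ^ m * (224 / 225) ^ d) / 5 ≤
      ∫ t, |(∏ i, t i) - ∑ j, a j * ∏ i, ind (x j i) (t i)| ∂(Measure.pi fun _ : Fin d => nu) := by
  have h := total m a (fun k j b y => ∫ u, e b y u * ind (x k j) u ∂nu) (fun k j => 1 / 3 < x k j)
    (by
      intro k j hk b
      cases b
      · rfl
      · have h1 : ∀ y, (fun u => e true y u * ind (x k j) u) = e true y := by
          intro y; funext u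
          by_cases hu : u ≤ 1 / 3
          · cases y <;> simp only [e, st, if_true, if_false, Bool.false_eq_true, if_pos hu, zero_mul]
          · have : x k j < u := by linarith [not_le.1 hu, not_lt.1 hk]
            simp [ind, this]
        rw [h1, h1]
        exact ((st0 _ _ _).2.trans (by norm_num)).trans (st0 0 1 0).2.symm)
    (by
      intro k j hk y
      have h1 : (fun u => e false y u * ind (x k j) u) = fun _ => 0 := by
        funext u
        by_cases hu : u ≤ 1 / 3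
        · have : ¬ x k j < u := by linarith
          simp [ind, this]
        · simp only [e, st, if_false, Bool.false_eq_true, if_neg hu, ite_self, zero_mul]
      rw [h1, integral_zero])
  rw [Fintype.card_fin] at h
  refine h.trans ?_
  obtain ⟨F, hF⟩ : ∃ F : (Fin d → ℝ) → ℝ,
      F = fun t => (∏ i, t i) - ∑ j, a j * ∏ i, ind (x j i) (t i) := ⟨_, rfl⟩
  have hF' : ∀ t, (∏ i, t i) - ∑ j, a j * ∏ i, ind (x j i) (t i) = F t := fun t => by rw [hF]
  simp only [hF']
  have one : ∀ π y : Fin d → Bool,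
      Integrable (fun t : Fin d → ℝ => (∏ i, e (π i) (y i) (t i)) * F t)
        (Measure.pi fun _ : Fin d => nu) ∧
      ∫ t, (∏ i, e (π i) (y i) (t i)) * F t ∂(Measure.pi fun _ : Fin d => nu) =
        ∏ j, (c (π j) * w (π j) (y j)) -
          ∑ k, a k * ∏ j, ∫ u, e (π j) (y j) u * ind (x k j) u ∂nu := by
    intro π y
    have e1 : (fun t : Fin d → ℝ => (∏ i, e (π i) (y i) (t i)) * F t) = fun t =>
        (∏ i, (e (π i) (y i) (t i) * t i)) -
          ∑ k, a k * ∏ i, (e (π i) (y i) (t i) * ind (x k i) (t i)) := by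
      funext t
      rw [← hF', mul_sub, mul_sum, prod_mul_distrib]
      congr 1
      refine sum_congr rfl fun k _ => ?_
      rw [prod_mul_distrib]; ring
    have I1 : Integrable (fun t : Fin d → ℝ => ∏ i, (e (π i) (y i) (t i) * t i))
        (Measure.pi fun _ : Fin d => nu) :=
      Integrable.fintype_prod (f := fun i u => e (π i) (y i) u * u) fun i => (e_int1 _ _).1
    have I2 : ∀ k, Integrable (fun t : Fin d → ℝ =>
        a k * ∏ i, (e (π i) (y i) (t i) * ind (x k i) (t i))) (Measure.pi fun _ : Fin d => nu) :=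
      fun k => (Integrable.fintype_prod (f := fun i u => e (π i) (y i) u * ind (x k i) u)
        fun i => e_int2 _ _ _).const_mul _
    have I3 := integrable_finsetSum univ fun k _ => I2 k
    rw [e1]
    refine ⟨I1.sub I3, ?_⟩
    rw [integral_sub I1 I3, integral_finsetSum _ fun k _ => I2 k,
      integral_fintype_prod_eq_prod (fun i u => e (π i) (y i) u * u)]
    congr 1
    · exact prod_congr rfl fun j _ => (e_int1 _ _).2
    · refine sum_congr rfl fun k _ => ?_
      rw [integral_const_mul,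
        integral_fintype_prod_eq_prod (fun i u => e (π i) (y i) u * ind (x k i) u)]
  calc _ = ∑ π : Fin d → Bool, ∑ y : Fin d → Bool,
        |∫ t, (∏ i, e (π i) (y i) (t i)) * F t ∂(Measure.pi fun _ : Fin d => nu)| := by
        simp only [(one _ _).2]
    _ ≤ ∑ π : Fin d → Bool, ∑ y : Fin d → Bool,
        ∫ t, |(∏ i, e (π i) (y i) (t i)) * F t| ∂(Measure.pi fun _ : Fin d => nu) :=
        sum_le_sum fun π _ => sum_le_sum fun y _ => abs_integral_le_integral_abs
    _ = ∫ t, ∑ π : Fin d → Bool, ∑ y : Fin d → Bool,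
        |(∏ i, e (π i) (y i) (t i)) * F t| ∂(Measure.pi fun _ : Fin d => nu) := by
        rw [integral_finsetSum _ fun π _ => integrable_finsetSum _ fun y _ => (one π y).1.abs]
        exact sum_congr rfl fun π _ => (integral_finsetSum _ fun y _ => (one π y).1.abs).symm
    _ = _ := by
        congr 1; funext t
        have h1 : ∀ π y : Fin d → Bool, |(∏ i, e (π i) (y i) (t i)) * F t|
            = (∏ i, e (π i) (y i) (t i)) * |F t| := fun π y => by
          rw [abs_mul, abs_of_nonneg (prod_nonneg fun i _ => e_nonneg _ _ _)]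
        simp only [h1, ← sum_mul]
        have h2 : ∀ π : Fin d → Bool, ∑ y : Fin d → Bool, ∏ i, e (π i) (y i) (t i)
            = ∏ i, (e (π i) true (t i) + e (π i) false (t i)) := fun π =>
          sum_pi (fun i b => e (π i) b (t i))
        simp only [h2]
        rw [sum_pi (fun i b => e b true (t i) + e b false (t i))]
        simp only [e_sum, prod_const_one, one_mul]

theorem curse : ∃ C : ℝ, 1 < C ∧ ∀ᶠ d : ℕ in Filter.atTop,
    ∀ (n : ℕ) (x : Fin n → Fin d → ℝ) (a : Fin n → ℝ),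
      ∫ t, |(∏ i, t i) - ∑ j, a j * ∏ i, ind (x j i) (t i)| ∂(Measure.pi fun _ : Fin d => nu)
        ≤ 1 / 10 * (1 / 2) ^ d → C ^ d ≤ n := by
  have hq : (3:ℝ) * (224 / 225) ^ 300 ≤ 9 / 10 := by
    rw [show 300 = 150 + 150 from rfl, pow_add]; norm_num
  have hC : (1 + 1 / 10000 : ℝ) ^ 300 ≤ 17 / 16 := by
    rw [show 300 = 150 + 150 from rfl, pow_add]; norm_num
  have t1 : Filter.Tendsto (fun m : ℕ => 8 * (9 / 10 : ℝ) ^ m) Filter.atTop (nhds (8 * 0)) :=
    (tendsto_pow_atTop_nhds_zero_of_lt_one (by norm_num) (by norm_num)).const_mul _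
  have t2 : Filter.Tendsto (fun m : ℕ => 5 * (17 / 18 : ℝ) ^ m) Filter.atTop (nhds (5 * 0)) :=
    (tendsto_pow_atTop_nhds_zero_of_lt_one (by norm_num) (by norm_num)).const_mul _
  obtain ⟨m0, hm0⟩ := Filter.eventually_atTop.1
    ((t1.eventually (gt_mem_nhds (by norm_num : (8 * 0 : ℝ) < 1 / 4))).and
      (t2.eventually (gt_mem_nhds (by norm_num : (5 * 0 : ℝ) < 1))))
  refine ⟨1 + 1 / 10000, by norm_num, Filter.eventually_atTop.2 ⟨300 * m0, fun d hd n x a hyp => ?_⟩⟩
  obtain ⟨m, hm⟩ : ∃ m, m = d / 300 := ⟨_, rfl⟩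
  obtain ⟨g1, g2⟩ := hm0 m (by omega)
  have h := (lower m x a).trans hyp
  have hp : (0:ℝ) < (1 / 2) ^ d := by positivity
  have h1 : 1 - n * (8 / 9) ^ m - 8 * 3 ^ m * (224 / 225 : ℝ) ^ d ≤ 1 / 2 := by
    refine le_of_mul_le_mul_left ?_ hp
    linarith
  have h2 : 3 ^ m * (224 / 225 : ℝ) ^ d ≤ (9 / 10) ^ m := by
    calc 3 ^ m * (224 / 225 : ℝ) ^ d ≤ 3 ^ m * (224 / 225 : ℝ) ^ (300 * m) :=
          mul_le_mul_of_nonneg_left
            (pow_le_pow_of_le_one (by norm_num) (by norm_num) (by omega)) (by positivity)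
      _ = (3 * (224 / 225) ^ 300) ^ m := by rw [pow_mul, mul_pow]
      _ ≤ _ := pow_le_pow_left₀ (by positivity) hq _
  have h3 : 1 / 4 ≤ n * (8 / 9 : ℝ) ^ m := by linarith
  have h4 : (1 + 1 / 10000 : ℝ) ^ d ≤ (17 / 16) ^ m * (17 / 16) := by
    calc (1 + 1 / 10000 : ℝ) ^ d ≤ (1 + 1 / 10000 : ℝ) ^ (300 * (m + 1)) :=
          pow_le_pow_right₀ (by norm_num) (by omega)
      _ = ((1 + 1 / 10000 : ℝ) ^ 300) ^ (m + 1) := pow_mul _ _ _
      _ ≤ (17 / 16) ^ (m + 1) := pow_le_pow_left₀ (by positivity) hC _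
      _ = _ := pow_succ _ _
  have h5 : (17 / 16 : ℝ) ^ m * (8 / 9) ^ m = (17 / 18) ^ m := by rw [← mul_pow]; norm_num
  have h6 : (0:ℝ) < (8 / 9) ^ m := by positivity
  refine h4.trans (le_of_mul_le_mul_right ?_ h6)
  have : (17 / 16 : ℝ) ^ m * (17 / 16) * (8 / 9) ^ m = 17 / 16 * (17 / 18) ^ m := by
    rw [← h5]; ring
  linarith

end Pool.Agent.H.MP_4b7d36_an
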