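import Pool.Agent.H.MP_4b7d36_an.C

set_option autoImplicit false

namespace Pool.Agent.H.MP_4b7d36_an

open MeasureTheory

/-- Weighted L1-discrepancy of nodes x k with real weights a k. -/
noncomputable def wdisc {N d : ℕ} (x : Fin N → Fin d → ℝ) (a : Fin N → ℝ) : ℝ :=
  ∫ t in Set.Icc (0 : Fin d → ℝ) 1,
    |∑ k, a k * Set.indicator {y : Fin d → ℝ | ∀ i, x k i < y i} (fun _ => (1 : ℝ)) t - ∏ i, t i|

/-- Minimal weighted L1-discrepancy over N nodes in the half-open cube and all real weights. -/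
noncomputable def opt (N d : ℕ) : ℝ :=
  sInf {v : ℝ | ∃ (x : Fin N → Fin d → ℝ) (a : Fin N → ℝ),
    (∀ k i, x k i ∈ Set.Ico (0 : ℝ) 1) ∧ v = wdisc x a}

theorem final : ∃ C : ℝ, 1 < C ∧ ∃ ε₀ : ℝ, 0 < ε₀ ∧ ε₀ < 1 ∧ ∀ᶠ d : ℕ in Filter.atTop,
    ∀ ε : ℝ, ε < ε₀ → ∀ N : ℕ, opt N d ≤ ε / 2 ^ d → C ^ d ≤ N := by
  obtain ⟨C, hC, H⟩ := curse
  refine ⟨C, hC, 1 / 10, by norm_num, by norm_num, H.mono fun d hd ε hε N h => ?_⟩
  have hp : (0:ℝ) < 2 ^ d := by positivity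
  have hlt : opt N d < 1 / 10 / 2 ^ d := h.trans_lt (div_lt_div_of_pos_right hε hp)
  have hne : {v : ℝ | ∃ (x : Fin N → Fin d → ℝ) (a : Fin N → ℝ),
      (∀ k i, x k i ∈ Set.Ico (0 : ℝ) 1) ∧ v = wdisc x a}.Nonempty :=
    ⟨_, fun _ _ => 0, fun _ => 0, fun _ _ => ⟨le_rfl, one_pos⟩, rfl⟩
  obtain ⟨v, ⟨x, a, -, rfl⟩, hv⟩ := exists_lt_of_csInf_lt hne hlt
  refine hd N x a ?_
  unfold wdisc at hv
  simp only [Pool.Agent.H.MP_e46b3e_an.ind_prod, Pool.Agent.H.MP_e46b3e_an.restrict_eq] at hv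
  simp only [abs_sub_comm (∏ _ : Fin d, _ : ℝ)]
  rw [one_div_pow, mul_one_div]
  exact hv.le

end Pool.Agent.H.MP_4b7d36_an
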